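import Pool.Agent.W23.DC.Defs
import Pool.Agent.H442R2.BX.Bk

/-!
DC project (owner helper23), task BKF: one coarse block, factorable moduli.
Adapted from `Pool.Agent.H442R2.BX.BK`.
-/

namespace Pool.Agent.W397.DC

open Finset
open Pool.Agent.H442R2
open Pool.Agent.H442R2.KF
open Pool.Agent.H442R2.BX (Df rf CofR nuS)
open Pool.Agent.W23.DC

theorem BKF (hTTF : St_TTF) (hDI : BX.St_DI) (hDU : BX.St_DU) (hPR : BX.St_PR)
    (hWXS : St_WXS) (hGW : BX.St_GW) (hEX : BX.St_EX) : St_BKF := by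
  intro θ δ ε hθ1 hθ hδ hε
  obtain ⟨e1, n1, C1, he1, hn1, hC1, tt⟩ := hTTF θ δ ε hθ1 hθ hδ hε
  obtain ⟨N2, C2, hC2, di⟩ := hDI ε hε
  obtain ⟨N3, C3, hC3, pr⟩ := hPR ε hε
  obtain ⟨N4, gw⟩ := hGW
  obtain ⟨e0, he0, he01, he04⟩ : ∃ e0 : ℝ, 0 < e0 ∧ e0 ≤ e1 ∧ e0 ≤ 1 / 4 :=
    ⟨min e1 (1 / 4), lt_min he1 (by norm_num), min_le_left _ _, min_le_right _ _⟩
  obtain ⟨n2, hn2, hn24, hn2e⟩ : ∃ n2 : ℝ, 0 < n2 ∧ n2 ≤ 1 / 4 ∧ n2 ≤ ε / 2 :=
    ⟨min (1 / 4) (ε / 2), lt_min (by norm_num) (by linarith), min_le_left _ _, min_le_right _ _⟩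
  obtain ⟨η, hη, hη1, hη2⟩ : ∃ η : ℝ, 0 < η ∧ η ≤ n1 / 2 ∧ η ≤ n2 :=
    ⟨min (n1 / 2) n2, lt_min (by linarith) hn2, min_le_left _ _, min_le_right _ _⟩
  obtain ⟨N5, hN5⟩ : ∃ N5 : ℕ, ∀ N : ℕ, N5 ≤ N → (2 : ℝ) ≤ (N : ℝ) ^ (e0 / 2) := by
    have := ((tendsto_rpow_atTop (half_pos he0)).comp
      (tendsto_natCast_atTop_atTop (R := ℝ))).eventually_ge_atTop 2
    exact Filter.eventually_atTop.1 this
  have hCb : 0 < 50 * (75 * (2 / e0)) * (C2 * (2 / e0) + C1 * (2 / n1)) +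
    18 * C3 ^ 2 * (2 / n2) ^ 2 := by positivity
  obtain ⟨M, hM⟩ : ∃ M : ℕ, M = N2 + N3 + N4 + N5 + 2 := ⟨_, rfl⟩
  refine ⟨e0, η, 50 * (75 * (2 / e0)) * (C2 * (2 / e0) + C1 * (2 / n1)) +
    18 * C3 ^ 2 * (2 / n2) ^ 2 + 4 * (M : ℝ) ^ 5, he0, hη, by positivity, ?_⟩
  intro N D0 X hN hXθ hD0 hXD f hf A hA T hT
  have hNr : (2 : ℝ) ≤ N := by exact_mod_cast hN
  have hN0 : (0 : ℝ) < N := by linarith
  have hN1 : (1 : ℝ) ≤ N := by linarith
  have hXN' : (X : ℝ) ≤ (N : ℝ) ^ (3 / 4 : ℝ) :=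
    hXθ.trans (Real.rpow_le_rpow_of_exponent_le hN1 (by linarith))
  have hXN : X ≤ N := by
    have : (X : ℝ) ≤ N := hXN'.trans (by
      calc (N : ℝ) ^ (3 / 4 : ℝ) ≤ (N : ℝ) ^ (1 : ℝ) :=
            Real.rpow_le_rpow_of_exponent_le hN1 (by norm_num)
        _ = N := Real.rpow_one _)
    exact_mod_cast this
  rcases lt_or_ge N M with hNM | hNM
  · refine BX.TaskBK.num0 hNr rfl (by linarith) (Nat.cast_nonneg _) (by exact_mod_cast hNM.le) ?_
      hCb.le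
    calc ∑ a ∈ A, (∑ d ∈ T a, |Df f N a d|) ^ 2 ≤ ∑ a ∈ A, 4 * (N : ℝ) ^ 4 := by
          refine sum_le_sum fun a ha => BX.TaskBK.small hf fun d hd => ?_
          obtain ⟨h1, h2, -⟩ := hT a ha d hd
          rw [mem_Icc]
          omega
      _ = A.card * (4 * (N : ℝ) ^ 4) := by rw [sum_const, nsmul_eq_mul]
  · have hL0 : 0 < Real.log N := Real.log_pos (by linarith)
    have hg2 : (2 : ℝ) ≤ (N : ℝ) ^ (e0 / 2) := hN5 N (by omega)
    obtain ⟨g, hg⟩ : ∃ g : ℝ, g = (N : ℝ) ^ (e0 / 2) := ⟨_, rfl⟩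
    rw [← hg] at hg2
    have hgg : (N : ℝ) ^ e0 = g * g := by
      rw [hg, ← Real.rpow_add hN0]
      congr 1
      ring
    obtain ⟨z, hz⟩ : ∃ z : ℕ, z = ⌊(N : ℝ) ^ e0⌋₊ := ⟨_, rfl⟩
    have hz1 : (z : ℝ) ≤ (N : ℝ) ^ e0 := by
      rw [hz]
      exact Nat.floor_le (Real.rpow_nonneg hN0.le _)
    have hz2 : (N : ℝ) ^ e0 < z + 1 := by
      rw [hz]
      exact Nat.lt_floor_add_one _
    have hgz : g ≤ z := by
      rw [hgg] at hz2
      nlinarith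
    have hz3 : 2 ≤ z := by
      have : (2 : ℝ) ≤ z := hg2.trans hgz
      exact_mod_cast this
    have hz4 : (z : ℝ) ≤ (N : ℝ) ^ (1 / 4 : ℝ) :=
      hz1.trans (Real.rpow_le_rpow_of_exponent_le hN1 he04)
    have hz5 : (z : ℝ) ≤ (N : ℝ) ^ e1 := hz1.trans (Real.rpow_le_rpow_of_exponent_le hN1 he01)
    have hlz : e0 / 2 * Real.log N ≤ Real.log z := by
      rw [← Real.log_rpow hN0, ← hg]
      exact Real.log_le_log (by linarith) hgz
    have hlz0 : 0 < Real.log z := lt_of_lt_of_le (by positivity) hlz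
    have hXD' : (X : ℝ) ≤ (N : ℝ) ^ e1 * D0 := by
      refine hXD.trans ?_
      have := Real.rpow_le_rpow_of_exponent_le hN1 he01
      gcongr
    obtain ⟨lam, hlams⟩ := hWXS z hz3
    have hlam := hlams.sw
    have hc : ∀ a : ℤ, ∃ c : ℕ → ℝ, a ∈ A → (CofR ((N : ℝ) ^ ε) X c ∧ (∀ d, c d ≠ 0 → d ∈ T a) ∧
        ∑ d ∈ T a, |Df f N a d| ≤
          |∑ p ∈ (Icc 1 N).filter (fun p => p.Prime ∧ z < p), f p * rf c X a p| +
            C3 * (z + X + (N : ℝ) ^ (1 - ε / 2))) := by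
      intro a
      by_cases ha : a ∈ A
      · obtain ⟨c, h1, h2, h3⟩ := pr N z X (by omega) hXN f hf a (hA a ha) (T a)
          (fun d hd => ⟨(hT a ha d hd).2.1, (hT a ha d hd).2.2.1⟩)
        exact ⟨c, fun _ => ⟨h1, h2, h3⟩⟩
      · exact ⟨0, fun h => absurd h ha⟩
    choose c hc using hc
    have hw25 : ∀ p ∈ (Icc 1 N).filter (fun p => p.Prime ∧ z < p),
        (1 : ℝ) ≤ 25 * (fun n : ℤ => Wt N n * nuS lam z n) (p : ℤ) := by
      intro p hp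
      rw [mem_filter, mem_Icc] at hp
      exact BX.TaskBK.w_prime hlam (by omega) hp.2.1 hp.2.2 hp.1.2
    have hG0 : 0 ≤ C2 * N / Real.log z := by positivity
    have hO0 : 0 ≤ C1 * (N : ℝ) ^ (1 - n1) := by positivity
    have hdu := hDU (fun n : ℤ => Wt N n * nuS lam z n) (fun n => BX.TaskBK.w_nonneg N z lam n)
      ((Icc 1 N).filter (fun p => p.Prime ∧ z < p)) hw25 A (fun a n => rf (c a) X a n) f
      (fun a _ a' _ => (hEX N z X (by omega) lam (c a) (c a') a a').2.1)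
      (C2 * N / Real.log z) (C1 * (N : ℝ) ^ (1 - n1))
      (fun a ha => di N z X (by omega) hXN hz3 hz4 lam hlam (c a) (hc a ha).1 a (hA a ha))
      hG0 hO0
      (fun a ha a' ha' haa => tt N z D0 X hN (by omega) hz5 hXθ hD0 hXD' lam hlams (c a) (c a')
        (hc a ha).1 (hc a' ha').1
        (fun d hd => ⟨(hT a ha d ((hc a ha).2.1 d hd)).1,
          (hT a ha d ((hc a ha).2.1 d hd)).2.2.2⟩)
        (fun d hd => ⟨(hT a' ha' d ((hc a' ha').2.1 d hd)).1,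
          (hT a' ha' d ((hc a' ha').2.1 d hd)).2.2.2⟩) a a' (hA a ha) (hA a' ha') haa)
    have hFs : ∑ p ∈ (Icc 1 N).filter (fun p => p.Prime ∧ z < p), f p ^ 2 ≤
        75 * (N / Real.log z) := by
      have h1 := gw N z (by omega) hz3 hz4 lam hlam
      have h2 : ∑ p ∈ (Icc 1 N).filter (fun p => p.Prime ∧ z < p),
          (Wt N (p : ℤ) * nuS lam z (p : ℤ)) ≤ ∑' n : ℤ, Wt N n * nuS lam z n := by
        have h3 := (BX.TaskBK.summ_w (by omega : 1 ≤ N) hlam).sum_le_tsum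
          (((Icc 1 N).filter (fun p => p.Prime ∧ z < p)).map
            ⟨(fun p : ℕ => (p : ℤ)), Nat.cast_injective⟩)
          (fun n _ => BX.TaskBK.w_nonneg N z lam n)
        rw [sum_map] at h3
        exact h3
      calc ∑ p ∈ (Icc 1 N).filter (fun p => p.Prime ∧ z < p), f p ^ 2
          ≤ ∑ p ∈ (Icc 1 N).filter (fun p => p.Prime ∧ z < p),
              25 * (Wt N (p : ℤ) * nuS lam z (p : ℤ)) := by
            refine sum_le_sum fun p hp => le_trans ?_ (hw25 p hp)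
            rw [← sq_abs]
            exact pow_le_one₀ (abs_nonneg _) (hf p)
        _ = 25 * ∑ p ∈ (Icc 1 N).filter (fun p => p.Prime ∧ z < p),
              (Wt N (p : ℤ) * nuS lam z (p : ℤ)) := by rw [mul_sum]
        _ ≤ 25 * (3 * N / Real.log z) := by
            have := h2.trans h1
            linarith
        _ = 75 * (N / Real.log z) := by ring
    have hE : C3 * (z + X + (N : ℝ) ^ (1 - ε / 2)) ≤ 3 * C3 * (N : ℝ) ^ (1 - n2) := by
      have h1 : (z : ℝ) ≤ (N : ℝ) ^ (1 - n2) :=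
        hz4.trans (Real.rpow_le_rpow_of_exponent_le hN1 (by linarith))
      have h2 : (X : ℝ) ≤ (N : ℝ) ^ (1 - n2) :=
        hXN'.trans (Real.rpow_le_rpow_of_exponent_le hN1 (by linarith))
      have h3 : (N : ℝ) ^ (1 - ε / 2) ≤ (N : ℝ) ^ (1 - n2) :=
        Real.rpow_le_rpow_of_exponent_le hN1 (by linarith)
      nlinarith
    have hE0 : 0 ≤ C3 * (z + X + (N : ℝ) ^ (1 - ε / 2)) := by positivity
    obtain ⟨E, hEe⟩ : ∃ E : ℝ, E = C3 * (z + X + (N : ℝ) ^ (1 - ε / 2)) := ⟨_, rfl⟩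
    have hSa : ∑ a ∈ A, (∑ d ∈ T a, |Df f N a d|) ^ 2 ≤
        2 * (∑ a ∈ A, (∑ p ∈ (Icc 1 N).filter (fun p => p.Prime ∧ z < p),
          f p * (fun (a n : ℤ) => rf (c a) X a n) a p) ^ 2) + 2 * A.card * E ^ 2 := by
      calc ∑ a ∈ A, (∑ d ∈ T a, |Df f N a d|) ^ 2
          ≤ ∑ a ∈ A, (2 * (∑ p ∈ (Icc 1 N).filter (fun p => p.Prime ∧ z < p),
              f p * (fun (a n : ℤ) => rf (c a) X a n) a p) ^ 2 + 2 * E ^ 2) := by
            refine sum_le_sum fun a ha => ?_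
            have h1 := (hc a ha).2.2
            rw [← hEe] at h1
            have h2 : (∑ d ∈ T a, |Df f N a d|) ^ 2 ≤
                (|∑ p ∈ (Icc 1 N).filter (fun p => p.Prime ∧ z < p), f p * rf (c a) X a p| + E) ^ 2 :=
              pow_le_pow_left₀ (sum_nonneg fun d _ => abs_nonneg _) h1 2
            exact h2.trans (BX.TaskBK.two_sq _ _)
        _ = _ := by
            rw [sum_add_distrib, ← mul_sum, sum_const, nsmul_eq_mul]
            ring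
    have hfin := BX.TaskBK.num hNr rfl rfl he0 hC1 hC2 hC3 hn1 hn2 hη1 hη2
      (Nat.cast_nonneg A.card) hlz hFs (sum_nonneg fun p _ => sq_nonneg _) rfl rfl hdu
      (hEe ▸ hE0) (hEe ▸ hE) hSa
    refine hfin.trans ?_
    have hpos : (0 : ℝ) ≤ (N / Real.log N) ^ 2 * (1 + A.card * (N : ℝ) ^ (-η)) := by positivity
    have hM5 : (0 : ℝ) ≤ 4 * (M : ℝ) ^ 5 := by positivity
    exact BX.TaskBK.add_le hM5 hpos

end Pool.Agent.W397.DC
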