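import Pool.Agent.W838.DC.Zs
import Pool.Agent.Helper741.Matsumoto

/-!
Two left descents `i ≠ j` with `m = 2` or `m = 3` (MP_1d6543_co, part DD). The simple reflections
of an arbitrary Coxeter system are different: the case of a finite index set is known, the general
case follows by a reduced product over the finite sets of indices.
-/

set_option autoImplicit false

namespace Pool.Agent.W397.DC

open Pool.Agent.W838.DC Pool.Agent.Helper741 CoxeterSystem

section fin

variable {B : Type*} {M : CoxeterMatrix B} [Fintype B] [DecidableEq B]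
variable {W : Type*} [Group W] (cs : CoxeterSystem M W)

theorem simple_ne_fin {i j : B} (h : i ≠ j) : cs.simple i ≠ cs.simple j := by
  intro he
  have h1 : cs.IsReduced (aw i j 2) := isReduced_aw cs h (by
    rcases Nat.eq_zero_or_pos (M i j) with h0 | h0
    · exact Or.inl h0
    · exact Or.inr (two_le_of_ne M h (by omega)))
  have h2 : cs.wordProd (aw i j 2) = 1 := by
    simp only [aw]
    rw [cs.wordProd_cons, cs.wordProd_cons, cs.wordProd_nil, mul_one, he,
      cs.simple_mul_simple_self]
  unfold CoxeterSystem.IsReduced at h1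
  rw [h2, cs.length_one, aw_length] at h1
  omega

end fin

section gen

variable {B : Type*} (M : CoxeterMatrix B)

/-- restriction of a Coxeter matrix -/
def rM (J : Finset B) : CoxeterMatrix J where
  M := M.M.submatrix (fun a => a.1) (fun a => a.1)
  isSymm := by
    ext a b
    exact M.symmetric b.1 a.1
  diagonal := fun a => M.diagonal a.1
  off_diagonal := fun a b h => M.off_diagonal a.1 b.1 (fun h' => h (Subtype.ext h'))

open Classical in
/-- the generator in the product -/
noncomputable def gp (i : B) : (J : Finset B) → (rM M J).Group := fun J =>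
  if h : i ∈ J then (rM M J).toCoxeterSystem.simple ⟨i, h⟩ else 1

/-- the normal subgroup of the eventually trivial elements -/
def ev : Subgroup ((J : Finset B) → (rM M J).Group) where
  carrier := {f | ∃ J0 : Finset B, ∀ J, J0 ≤ J → f J = 1}
  mul_mem' := by
    classical
    rintro f g ⟨J0, h0⟩ ⟨J1, h1⟩
    refine ⟨J0 ⊔ J1, fun J hJ => ?_⟩
    rw [Pi.mul_apply, h0 J (le_sup_left.trans hJ), h1 J (le_sup_right.trans hJ), mul_one]
  one_mem' := ⟨∅, fun J _ => rfl⟩
  inv_mem' := by
    rintro f ⟨J0, h0⟩
    refine ⟨J0, fun J hJ => ?_⟩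
    rw [Pi.inv_apply, h0 J hJ, inv_one]

theorem mem_ev (f : (J : Finset B) → (rM M J).Group) :
    f ∈ ev M ↔ ∃ J0 : Finset B, ∀ J, J0 ≤ J → f J = 1 := Iff.rfl

instance ev_normal : (ev M).Normal where
  conj_mem := by
    rintro f ⟨J0, h0⟩ g
    refine ⟨J0, fun J hJ => ?_⟩
    rw [Pi.mul_apply, Pi.mul_apply, Pi.inv_apply, h0 J hJ, mul_one, mul_inv_cancel]

theorem gp_liftable :
    M.IsLiftable (fun i => (QuotientGroup.mk' (ev M) (gp M i) :
      ((J : Finset B) → (rM M J).Group) ⧸ ev M)) := by
  classical
  intro i j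
  rw [← map_mul, ← map_pow]
  refine (QuotientGroup.eq_one_iff _).2 ?_
  refine ⟨{i, j}, fun J hJ => ?_⟩
  have hi : i ∈ J := hJ (by simp)
  have hj : j ∈ J := hJ (by simp)
  rw [Pi.pow_apply, Pi.mul_apply, gp, gp, dif_pos hi, dif_pos hj]
  exact (rM M J).toCoxeterSystem.simple_mul_simple_pow ⟨i, hi⟩ ⟨j, hj⟩

variable {M}
variable {W : Type*} [Group W] (cs : CoxeterSystem M W)

theorem simple_ne {i j : B} (h : i ≠ j) : cs.simple i ≠ cs.simple j := by
  classical
  intro he
  have h1 := congrArg (cs.lift ⟨_, gp_liftable M⟩) he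
  rw [cs.lift_apply_simple, cs.lift_apply_simple] at h1
  have h2 := (QuotientGroup.eq).1 h1
  obtain ⟨J0, h0⟩ := h2
  have hJ := h0 (J0 ⊔ {i, j}) le_sup_left
  have hi : i ∈ J0 ⊔ {i, j} := by simp
  have hj : j ∈ J0 ⊔ {i, j} := by simp
  rw [Pi.mul_apply, Pi.inv_apply, gp, gp, dif_pos hi, dif_pos hj, inv_mul_eq_one] at hJ
  exact simple_ne_fin (rM M (J0 ⊔ {i, j})).toCoxeterSystem
    (i := ⟨i, hi⟩) (j := ⟨j, hj⟩) (fun h' => h (congrArg Subtype.val h')) hJ

theorem two {i j : B} {x : W} (hij : i ≠ j) (hi : cs.length (cs.simple i * x) < cs.length x)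
    (hj : cs.length (cs.simple j * x) < cs.length x) :
    ∃ z, x = cs.simple i * (cs.simple j * z) ∧ cs.length x = cs.length z + 2 := by
  obtain ⟨ω, hred, hω⟩ := cs.exists_isReduced (cs.simple j * x)
  have hx : x = cs.wordProd (j :: ω) := by
    rw [cs.wordProd_cons, ← hω, cs.simple_mul_simple_cancel_left]
  have hl : ω.length < cs.length x := by
    have := hred.eq
    rw [← hω] at this
    omega
  have hi' := hi
  rw [hx] at hi'
  obtain ⟨p, hp, hpe⟩ := exchange cs (j :: ω) i hi'
  rw [← hx] at hpe
  rcases p with _ | p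
  · exfalso
    rw [List.eraseIdx_cons_zero, ← hω] at hpe
    exact simple_ne cs hij (mul_right_cancel hpe)
  · rw [List.eraseIdx_cons_succ, cs.wordProd_cons] at hpe
    refine ⟨cs.wordProd (ω.eraseIdx p), ?_, ?_⟩
    · rw [← hpe, cs.simple_mul_simple_cancel_left]
    · have hp' : p < ω.length := by simpa using hp
      have h1 := cs.length_wordProd_le (ω.eraseIdx p)
      have h2 := List.length_eraseIdx_add_one (l := ω) (i := p) hp'
      have h3 : x = cs.simple i * (cs.simple j * cs.wordProd (ω.eraseIdx p)) := by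
        rw [← hpe, cs.simple_mul_simple_cancel_left]
      have h4 := cs.length_simple_mul (cs.simple j * cs.wordProd (ω.eraseIdx p)) i
      have h5 := cs.length_simple_mul (cs.wordProd (ω.eraseIdx p)) j
      rw [← h3] at h4
      omega

theorem dd : S_DD cs := by
  intro i j x hij hi hj
  refine ⟨fun _ => two cs hij hi hj, fun hM => ?_⟩
  obtain ⟨z1, hz1, hl1⟩ := two cs hij.symm hj hi
  obtain ⟨ω, hred, hω⟩ := cs.exists_isReduced z1
  have hx : x = cs.wordProd (j :: i :: ω) := by
    rw [cs.wordProd_cons, cs.wordProd_cons, ← hω, hz1]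
  have hl : ω.length + 2 = cs.length x := by
    have := hred.eq
    rw [← hω] at this
    omega
  have hi' := hi
  rw [hx] at hi'
  obtain ⟨p, hp, hpe⟩ := exchange cs (j :: i :: ω) i hi'
  rw [← hx] at hpe
  rcases p with _ | _ | p
  · exfalso
    rw [List.eraseIdx_cons_zero, cs.wordProd_cons, ← hω] at hpe
    have h1 := mul_left_cancel hpe
    rw [h1] at hl1
    omega
  · exfalso
    rw [List.eraseIdx_cons_succ, List.eraseIdx_cons_zero, cs.wordProd_cons, ← hω, hz1,
      ← mul_assoc, ← mul_assoc] at hpe
    have h1 := mul_right_cancel hpe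
    -- `s_i s_j s_i = s_j`
    have h2 := cs.simple_mul_simple_pow i j
    rw [hM] at h2
    have h3 : cs.simple i * cs.simple j = 1 := by
      have e1 : (cs.simple i * cs.simple j) ^ 3 = cs.simple i * cs.simple j := by
        have : (cs.simple i * cs.simple j) ^ 3 =
            (cs.simple i * cs.simple j * cs.simple i) * cs.simple j *
              (cs.simple i * cs.simple j) := by
          simp only [pow_succ, pow_zero, one_mul, mul_assoc]
        rw [this, h1, cs.simple_mul_simple_self, one_mul]
      rw [← e1, h2]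
    have h4 : cs.simple i = cs.simple j := by
      have := congrArg (fun y => y * cs.simple j) h3
      simpa [mul_assoc] using this
    exact simple_ne cs hij h4
  · rw [List.eraseIdx_cons_succ, List.eraseIdx_cons_succ, cs.wordProd_cons,
      cs.wordProd_cons] at hpe
    have h3 : x = cs.simple i * (cs.simple j * (cs.simple i *
        cs.wordProd (ω.eraseIdx p))) := by
      rw [← hpe, cs.simple_mul_simple_cancel_left]
    refine ⟨cs.wordProd (ω.eraseIdx p), h3, ?_⟩
    have hp' : p < ω.length := by simpa using hp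
    have h1 := cs.length_wordProd_le (ω.eraseIdx p)
    have h2 := List.length_eraseIdx_add_one (l := ω) (i := p) hp'
    have h4 := cs.length_simple_mul (cs.simple j * (cs.simple i *
      cs.wordProd (ω.eraseIdx p))) i
    have h5 := cs.length_simple_mul (cs.simple i * cs.wordProd (ω.eraseIdx p)) j
    have h6 := cs.length_simple_mul (cs.wordProd (ω.eraseIdx p)) i
    rw [← h3] at h4
    omega

end gen

end Pool.Agent.W397.DC
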